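import Pool.Agent.KDT.StmtsP

set_option autoImplicit false

/-!
Row TDO of squad KDT (MP_160b6c_nt), block Z: an algebraically closed field of transcendence degree 1.
-/

namespace Pool.Agent.KDT.H34

open Polynomial

theorem mem_range_of_alg (k U : Type) [Field k] [IsAlgClosed k] [Field U] [Algebra k U] (t : U)
    (ht : IsAlgebraic k t) : t ∈ (algebraMap k U).range := by
  have hi : IsIntegral k t := ht.isIntegral
  have h1 := minpoly.irreducible hi
  have h2 := IsAlgClosed.degree_eq_one_of_irreducible k h1
  exact minpoly.mem_range_of_degree_eq_one k t h2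

theorem tdo : Z.TdoStatement := by
  intro k _ _
  let K := FractionRing k[X]
  let U := AlgebraicClosure K
  haveI t1 : IsScalarTower k[X] K U := inferInstance
  haveI t2 : IsScalarTower k k[X] U := inferInstance
  have hinj : Function.Injective (algebraMap k[X] U) := by
    rw [IsScalarTower.algebraMap_eq k[X] K U]
    exact (FaithfulSMul.algebraMap_injective K U).comp (IsFractionRing.injective k[X] K)
  haveI f2 : FaithfulSMul k[X] U := (faithfulSMul_iff_algebraMap_injective _ _).mpr hinj
  haveI a1 : Algebra.IsAlgebraic k[X] U := by
    haveI : Algebra.IsAlgebraic k[X] K := IsLocalization.isAlgebraic K (nonZeroDivisors k[X])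
    haveI : Algebra.IsAlgebraic K U := inferInstance
    haveI : FaithfulSMul k[X] K :=
      (faithfulSMul_iff_algebraMap_injective _ _).mpr (IsFractionRing.injective k[X] K)
    exact Algebra.IsAlgebraic.trans k[X] K U
  have htr : Algebra.trdeg k U = 1 := by
    have h := trdeg_add_eq k k[X] (A := U)
    rw [Polynomial.trdeg_of_isDomain, trdeg_eq_zero, add_zero] at h
    exact h.symm
  refine ⟨U, inferInstance, inferInstance, inferInstance, ?_, ?_⟩
  · intro t ht
    have htt : Transcendental k t := fun h => ht (mem_range_of_alg k U t h)
    have hind : AlgebraicIndependent k (fun _ : Unit => t) :=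
      algebraicIndependent_unique_type_iff.mpr htt
    have hb := hind.isTranscendenceBasis_of_trdeg_le_of_finite (by rw [htr]; simp)
    have h3 := hb.isAlgebraic
    rw [Set.range_const] at h3
    exact IntermediateField.isAlgebraic_adjoin_iff_top.mpr h3
  · refine ⟨algebraMap k[X] U X, ?_⟩
    rintro ⟨a, ha⟩
    have h4 : algebraMap k[X] U (C a) = algebraMap k[X] U X := by
      rw [← ha, IsScalarTower.algebraMap_apply k k[X] U]
      rfl
    have h5 := hinj h4
    exact X_ne_C a h5.symm

end Pool.Agent.KDT.H34
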